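import Pool.Agent.H.MP_5ffaeb_an.Main

namespace Pool.Agent.Results.MP_5ffaeb_an.NotDense

open Pool.Agent.H.MP_5ffaeb_an Pool.Agent.Lib.helper22.Lind

def NA (X Y : Type) [NormedAddCommGroup X] [NormedSpace ℝ X] [NormedAddCommGroup Y]
    [NormedSpace ℝ Y] : Set (X →L[ℝ] Y) := {T | ∃ x, ‖x‖ = 1 ∧ ‖T x‖ = ‖T‖}

def OneCompl {X : Type} [NormedAddCommGroup X] [NormedSpace ℝ X] (X₁ : Submodule ℝ X) : Prop :=
  IsClosed (X₁ : Set X) ∧ ∃ P : X →L[ℝ] X, ‖P‖ ≤ 1 ∧ (∀ x, P x ∈ X₁) ∧ ∀ x ∈ X₁, P x = x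

theorem result : ∃ (X Y : Type) (_ : NormedAddCommGroup X) (_ : NormedSpace ℝ X) (_ : CompleteSpace X)
    (_ : NormedAddCommGroup Y) (_ : NormedSpace ℝ Y) (_ : CompleteSpace Y) (X₁ : Submodule ℝ X),
    OneCompl X₁ ∧ Dense (NA X Y) ∧ ¬ Dense (NA X₁ Y) := by
  refine ⟨X, Y, inferInstance, inferInstance, inferInstance, inferInstance, inferInstance,
    inferInstance, X1, ⟨?_, J ∘L π', (J.opNorm_comp_le π').trans (mul_le_one₀ J_le (norm_nonneg _) π_le),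
    fun x => J_mem _, J_π⟩, fun T => Metric.mem_closure_iff.2 fun ε hε => ?_, fun h => ?_⟩
  · rw [X1, Submodule.coe_iInf]
    exact isClosed_iInter fun g => (d' g).isClosed_ker
  · obtain ⟨S, x, h1, h2, h3⟩ := dense T (ε / (‖T‖ + 1)) (by positivity)
    refine ⟨S, ⟨x, h1, h2⟩, (dist_eq_norm T S).trans_lt (h3.trans_lt ?_)⟩
    rw [div_mul_eq_mul_div, div_lt_iff₀ (by positivity)]
    linarith
  · obtain ⟨S, ⟨z, h1, h2⟩, h3⟩ := Metric.mem_closure_iff.1 (h (T0 ∘L π' ∘L X1.subtypeL)) 1 one_pos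
    let J' := J.codRestrict X1 J_mem
    have j1 : ‖J'‖ ≤ 1 := J'.opNorm_le_bound zero_le_one (J.le_of_opNorm_le J_le)
    have := far (S ∘L J') (π' z) ((π'.le_of_opNorm_le π_le z).trans_eq ((one_mul _).trans h1))
      ((S.opNorm_comp_le J').trans ((mul_le_of_le_one_right (norm_nonneg _) j1).trans_eq
        (h2.symm.trans (congrArg (‖S ·‖) (Subtype.ext (J_π _ z.2)).symm)))) 1
    rw [show S ∘L J' - (1 : ℝ) • T0 = (S - T0 ∘L π' ∘L X1.subtypeL) ∘L J' from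
      ContinuousLinearMap.ext fun x => congrArg (S (J' x) - ·)
        ((one_smul ℝ (T0 x)).trans (congrArg T0 (π_j x).symm)), abs_one] at this
    rw [dist_comm, dist_eq_norm] at h3
    linarith [(this.trans (ContinuousLinearMap.opNorm_comp_le _ _)).trans
      (mul_le_of_le_one_right (norm_nonneg _) j1)]

end Pool.Agent.Results.MP_5ffaeb_an.NotDense
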